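import Pool.Agent.R272.Conf.Path

/-!
# MP_0fb7ac_an: finite-area conformal metrics with curvature at least one can have diameter above π

Disproof of Q1: an explicit smooth `u` on the plane with `Δu + e^{2u} ≤ 0` (Gaussian curvature at
least one), finite area, and `diam_g(ℝ²) > π`.
-/

set_option autoImplicit false

open Real MeasureTheory Pool.Agent.R272.Conf

namespace Pool.Agent.Results.MP_0fb7ac_an.DiameterAbovePi

/-- The diameter of the plane for the conformal metric `e^{2u} (dx² + dy²)`. -/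
noncomputable def diam (u : ℝ × ℝ → ℝ) : ENNReal := ⨆ x, ⨆ y, ENNReal.ofReal (dg u x y)

/-- There is a smooth `u : ℝ² → ℝ` with `Δu + e^{2u} ≤ 0` everywhere (i.e. Gaussian curvature
`K ≥ 1` for `g = e^{2u} δ`), of finite `g`-area, and with `diam_g (ℝ²) > π`. -/
theorem result : ∃ u : ℝ × ℝ → ℝ, (∀ n : WithTop ℕ∞, ContDiff ℝ n u) ∧
    (∀ z, lap u z + exp (2 * u z) ≤ 0) ∧
    Integrable (fun z => exp (2 * u z)) ∧
    ENNReal.ofReal π < diam u := by
  refine ⟨uu, contDiff_uu, Pool.Agent.R272.Conf.super, integrable_exp, ?_⟩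
  refine lt_of_lt_of_le ((ENNReal.ofReal_lt_ofReal_iff (lt_trans pi_pos dg_gt)).mpr dg_gt) ?_
  exact le_iSup₂ (f := fun x y => ENNReal.ofReal (dg uu x y)) (1, 0) (-1, 0)

end Pool.Agent.Results.MP_0fb7ac_an.DiameterAbovePi
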